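import Pool.Agent.LibHL85.Low

/-!
Commutators of `f` with operators of weight one which commute with `e`.
-/

namespace Pool.Agent.LibHL85

open Module

section
variable {F V : Type*} [Field F] [AddCommGroup V] [Module F V]

/-- `f` lowers the degree by `2` and `[e, f] = k + j - n` on `G k j`. -/
structure Low (n : ℕ) (G : ℕ → ℕ → Submodule F V) (e f : Module.End F V) : Prop where
  mem : ∀ k j, ∀ x ∈ G k (j + 2), f x ∈ G k j
  small : ∀ k j, j < 2 → ∀ x ∈ G k j, f x = 0
  comm : ∀ k j, ∀ x ∈ G k j, e (f x) - f (e x) = ((k : F) + j - n) • x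

variable {n : ℕ} {G : ℕ → ℕ → Submodule F V} {e f : Module.End F V}

theorem Lef.exists_low (h : Lef n G e) : ∃ f, Low n G e f := by
  obtain ⟨f, h1, h2, h3⟩ := h.exists_f
  exact ⟨f, h1, h2, h3⟩

namespace Low

/-- The commutator of `f` and `T`. -/
theorem comm_add (hL : Low n G e f) {T : Module.End F V} (hT : T * e = e * T) {k j : ℕ}
    {x : V} (hx : x ∈ G k j) {c : F} (hc : e (f (T x)) - f (e (T x)) = c • T x) :
    e ((f * T - T * f) x) - (f * T - T * f) (e x) = (c - ((k : F) + j - n)) • T x := by
  have h1 : ∀ y, T (e y) = e (T y) := fun y => LinearMap.congr_fun hT y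
  have h2 := congrArg T (hL.comm k j x hx)
  rw [map_sub, map_smul, h1] at h2
  simp only [LinearMap.sub_apply, Module.End.mul_apply, map_sub, h1]
  rw [sub_smul, ← hc, ← h2]
  abel

/-- For an operator of weight one which commutes with `e` the double commutator is `0`. -/
theorem comm_comm (h : Lef n G e) (hL : Low n G e f) {T : Module.End F V} (hT : T * e = e * T)
    (hw : (∀ k j, ∀ x ∈ G k j, T x ∈ G (k + 1) j) ∨
      ((∀ k j, ∀ x ∈ G (k + 1) j, T x ∈ G k (j + 2)) ∧ ∀ j, ∀ x ∈ G 0 j, T x = 0)) :
    f * (f * T - T * f) = (f * T - T * f) * f := by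
  -- the values of the weights
  have hw1 : ∀ k j, ∀ x ∈ G k j, e (f (T x)) - f (e (T x)) = ((k : F) + j - n + 1) • T x := by
    intro k j x hx
    rcases hw with hw | ⟨hw, hw0⟩
    · rw [hL.comm _ _ _ (hw k j x hx)]
      congr 1
      push_cast
      ring
    · rcases k with _ | k
      · rw [hw0 j x hx]; simp
      · rw [hL.comm _ _ _ (hw k j x hx)]
        congr 1
        push_cast
        ring
  set T' := f * T - T * f with hT'
  have h1 : ∀ x, e (T' x) - T' (e x) = T x := by
    have h2 : e * T' - T' * e = T := by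
      apply ext_glue h.internal
      intro k j x hx
      have h3 := hL.comm_add hT hx (hw1 k j x hx)
      rw [LinearMap.sub_apply, Module.End.mul_apply, Module.End.mul_apply, h3]
      have : ((k : F) + j - n + 1 - ((k : F) + j - n)) = 1 := by ring
      rw [this, one_smul]
    intro x
    rw [← h2]
    rfl
  -- `T'` has weight `-1`
  have hfT : ∀ k j, ∀ x ∈ G k j, e (f (T' x)) - f (e (T' x)) = ((k : F) + j - n - 1) • T' x := by
    intro k j x hx
    rcases hw with hw | ⟨hw, hw0⟩
    · rcases Nat.lt_or_ge j 2 with hj | hj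
      · have h3 : T' x = 0 := by
          rw [hT', LinearMap.sub_apply, Module.End.mul_apply, Module.End.mul_apply,
            hL.small _ j hj _ (hw k j x hx), hL.small _ j hj x hx, map_zero, sub_zero]
        rw [h3]; simp
      · obtain ⟨i, rfl⟩ : ∃ i, j = i + 2 := ⟨j - 2, by omega⟩
        have h3 : T' x ∈ G (k + 1) i := by
          rw [hT', LinearMap.sub_apply, Module.End.mul_apply, Module.End.mul_apply]
          exact Submodule.sub_mem _ (hL.mem _ _ _ (hw _ _ x hx)) (hw _ _ _ (hL.mem _ _ x hx))
        rw [hL.comm _ _ _ h3]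
        congr 1
        push_cast
        ring
    · rcases k with _ | k
      · have h3 : T' x = 0 := by
          rw [hT', LinearMap.sub_apply, Module.End.mul_apply, Module.End.mul_apply, hw0 j x hx,
            map_zero, zero_sub, neg_eq_zero]
          rcases Nat.lt_or_ge j 2 with hj | hj
          · rw [hL.small _ j hj x hx, map_zero]
          · obtain ⟨i, rfl⟩ : ∃ i, j = i + 2 := ⟨j - 2, by omega⟩
            exact hw0 i _ (hL.mem _ _ x hx)
        rw [h3]; simp
      · have h3 : T' x ∈ G k j := by
          rw [hT', LinearMap.sub_apply, Module.End.mul_apply, Module.End.mul_apply]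
          refine Submodule.sub_mem _ (hL.mem _ _ _ (hw _ _ x hx)) ?_
          rcases Nat.lt_or_ge j 2 with hj | hj
          · rw [hL.small _ j hj x hx, map_zero]; exact Submodule.zero_mem _
          · obtain ⟨i, rfl⟩ : ∃ i, j = i + 2 := ⟨j - 2, by omega⟩
            exact hw _ _ _ (hL.mem _ _ x hx)
        rw [hL.comm _ _ _ h3]
        congr 1
        push_cast
        ring
  rw [← sub_eq_zero]
  apply h.eq_zero_of_neg
  · -- commutes with `e`
    apply ext_glue h.internal
    intro k j x hx
    have h3 := hfT k j x hx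
    have h4 := congrArg T' (hL.comm k j x hx)
    have h5 := h1 (f x)
    have h6 := congrArg f (h1 x)
    have h7 : T' x = f (T x) - T (f x) := rfl
    rw [map_sub, map_smul] at h4
    rw [map_sub] at h6
    simp only [Module.End.mul_apply, LinearMap.sub_apply, map_sub]
    -- goal : f (T' (e x)) - T' (f (e x)) = e (f (T' x)) - e (T' (f x))
    have h8 : e (f (T' x)) = f (e (T' x)) + ((k : F) + j - n - 1) • T' x := by
      rw [← h3]; abel
    have h9 : f (T' (e x)) = f (e (T' x)) - f (T x) := by rw [← h6]; abel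
    have h10 : e (T' (f x)) = T' (e (f x)) + T (f x) := by rw [← h5]; abel
    have h11 : T' (f (e x)) = T' (e (f x)) - ((k : F) + j - n) • T' x := by rw [← h4]; abel
    rw [h8, h9, h10, h11]
    have h12 : ((k : F) + j - n - 1) • T' x = ((k : F) + j - n) • T' x - T' x := by
      rw [sub_smul, one_smul]
    rw [h12]
    conv_rhs => rw [h7]
    rw [← h7]
    rw [h7]
    abel
  · intro k j d hn x hx
    have hf0 : ∀ {k j : ℕ} {x : V}, j < 2 → x ∈ G k j → f x = 0 := fun hj hx => hL.small _ _ hj _ hx
    have hff0 : ∀ {k j : ℕ} {x : V}, j < 4 → x ∈ G k j → f (f x) = 0 := by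
      intro k j x hj hx
      rcases Nat.lt_or_ge j 2 with hj2 | hj2
      · rw [hf0 hj2 hx, map_zero]
      · obtain ⟨i, rfl⟩ : ∃ i, j = i + 2 := ⟨j - 2, by omega⟩
        exact hf0 (by omega) (hL.mem _ _ x hx)
    have h3 : (f * T' - T' * f) x = f (f (T x)) - f (T (f x)) - (f (T (f x)) - T (f (f x))) := by
      rw [LinearMap.sub_apply, Module.End.mul_apply, Module.End.mul_apply, hT']
      simp only [LinearMap.sub_apply, Module.End.mul_apply, map_sub]
    rw [h3]
    rcases hw with hw | ⟨hw, hw0⟩
    · rcases Nat.lt_or_ge j 4 with hj | hj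
      · left
        have h4 : f (f (T x)) = 0 := hff0 hj (hw k j x hx)
        have h5 : f (T (f x)) = 0 := by
          rcases Nat.lt_or_ge j 2 with hj2 | hj2
          · rw [hf0 hj2 hx, map_zero, map_zero]
          · obtain ⟨i, rfl⟩ : ∃ i, j = i + 2 := ⟨j - 2, by omega⟩
            exact hf0 (by omega : i < 2) (hw _ _ _ (hL.mem _ _ x hx))
        rw [h4, h5, hff0 hj hx, map_zero]
        simp
      · right
        obtain ⟨i, rfl⟩ : ∃ i, j = i + 2 + 2 := ⟨j - 4, by omega⟩
        refine ⟨k + 1, i, d + 3, by omega, by omega, ?_⟩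
        have h4 := hL.mem _ _ _ (hL.mem _ _ _ (hw _ _ x hx))
        have h5 := hL.mem _ _ _ (hw _ _ _ (hL.mem _ _ x hx))
        have h6 := hw _ _ _ (hL.mem _ _ _ (hL.mem _ _ x hx))
        exact Submodule.sub_mem _ (Submodule.sub_mem _ h4 h5) (Submodule.sub_mem _ h5 h6)
    · rcases k with _ | k
      · left
        have h0 : ∀ {j : ℕ} {x : V}, x ∈ G 0 j → T (f x) = 0 := by
          intro j x hx
          rcases Nat.lt_or_ge j 2 with hj2 | hj2
          · rw [hf0 hj2 hx, map_zero]
          · obtain ⟨i, rfl⟩ : ∃ i, j = i + 2 := ⟨j - 2, by omega⟩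
            exact hw0 _ _ (hL.mem _ _ x hx)
        have h00 : T (f (f x)) = 0 := by
          rcases Nat.lt_or_ge j 2 with hj2 | hj2
          · rw [hf0 hj2 hx, map_zero, map_zero]
          · obtain ⟨i, rfl⟩ : ∃ i, j = i + 2 := ⟨j - 2, by omega⟩
            exact h0 (hL.mem _ _ x hx)
        rw [hw0 j x hx, h0 hx, h00, map_zero, map_zero]
        simp
      · rcases Nat.lt_or_ge j 2 with hj | hj
        · left
          rw [hf0 hj hx, map_zero, map_zero, map_zero, hf0 hj (hL.mem _ _ _ (hw k j x hx))]
          simp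
        · right
          obtain ⟨i, rfl⟩ : ∃ i, j = i + 2 := ⟨j - 2, by omega⟩
          refine ⟨k, i, d + 3, by omega, by omega, ?_⟩
          have h4 := hL.mem _ _ _ (hL.mem _ _ _ (hw _ _ x hx))
          have h5 := hL.mem _ _ _ (hw _ _ _ (hL.mem _ _ x hx))
          have h6 : T (f (f x)) ∈ G k i := by
            rcases Nat.lt_or_ge i 2 with hi | hi
            · rw [hf0 hi (hL.mem _ _ x hx), map_zero]; exact Submodule.zero_mem _
            · obtain ⟨l, rfl⟩ : ∃ l, i = l + 2 := ⟨i - 2, by omega⟩
              exact hw _ _ _ (hL.mem _ _ _ (hL.mem _ _ x hx))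
          exact Submodule.sub_mem _ (Submodule.sub_mem _ h4 h5) (Submodule.sub_mem _ h5 h6)

end Low

end

end Pool.Agent.LibHL85
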