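import Mathlib

/-!
Hard Lefschetz: the primitive decomposition and the operator of degree `-2`.
-/

namespace Pool.Agent.LibHL85

open Module

section
variable {F V : Type*} [Field F] [AddCommGroup V] [Module F V]

/-- A bigraded space `G k j` (`j` the degree, `n - k` the dimension) with an operator `e` of degree
`2` which satisfies hard Lefschetz. -/
structure Lef (n : ℕ) (G : ℕ → ℕ → Submodule F V) (e : Module.End F V) : Prop where
  internal : DirectSum.IsInternal fun p : ℕ × ℕ => G p.1 p.2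
  mem : ∀ k j, ∀ x ∈ G k j, e x ∈ G k (j + 2)
  high : ∀ k j, 2 * n < j + 2 * k → G k j = ⊥
  inj : ∀ k j d, k + j + d = n → ∀ x ∈ G k j, (e ^ d) x = 0 → x = 0
  surj : ∀ k j d, k + j + d = n → ∀ y ∈ G k (j + 2 * d), ∃ x ∈ G k j, (e ^ d) x = y

/-- Linear maps given on the pieces. -/
theorem exists_glue {G : ℕ → ℕ → Submodule F V}
    (hI : DirectSum.IsInternal fun p : ℕ × ℕ => G p.1 p.2) {V' : Type*} [AddCommGroup V']
    [Module F V'] (φ : ℕ → ℕ → V →ₗ[F] V') :
    ∃ f : V →ₗ[F] V', ∀ k j, ∀ x ∈ G k j, f x = φ k j x := by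
  classical
  let E : (DirectSum (ℕ × ℕ) fun p => G p.1 p.2) ≃ₗ[F] V :=
    LinearEquiv.ofBijective (DirectSum.coeLinearMap fun p : ℕ × ℕ => G p.1 p.2) hI
  refine ⟨(DirectSum.toModule F (ℕ × ℕ) V' fun p => (φ p.1 p.2) ∘ₗ (G p.1 p.2).subtype) ∘ₗ
    E.symm.toLinearMap, ?_⟩
  intro k j x hx
  have h1 : E.symm x = DirectSum.lof F (ℕ × ℕ) (fun p => G p.1 p.2) (k, j) ⟨x, hx⟩ := by
    rw [LinearEquiv.symm_apply_eq]
    exact (DirectSum.coeLinearMap_lof (fun p : ℕ × ℕ => G p.1 p.2) (k, j) ⟨x, hx⟩).symm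
  rw [LinearMap.comp_apply, LinearEquiv.coe_coe, h1, DirectSum.toModule_lof]
  rfl

/-- Two linear maps which agree on the pieces agree. -/
theorem ext_glue {G : ℕ → ℕ → Submodule F V}
    (hI : DirectSum.IsInternal fun p : ℕ × ℕ => G p.1 p.2) {V' : Type*} [AddCommGroup V']
    [Module F V'] {f g : V →ₗ[F] V'} (h : ∀ k j, ∀ x ∈ G k j, f x = g x) : f = g := by
  have h1 : (⨆ p : ℕ × ℕ, G p.1 p.2) ≤ LinearMap.ker (f - g) := by
    apply iSup_le
    intro p x hx
    rw [LinearMap.mem_ker, LinearMap.sub_apply, h _ _ x hx, sub_self]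
  rw [hI.submodule_iSup_eq_top] at h1
  have h2 : f - g = 0 := by
    ext x
    exact h1 (Submodule.mem_top : x ∈ ⊤)
  exact sub_eq_zero.mp h2

/-- A subspace which contains the pieces is everything. -/
theorem top_glue {G : ℕ → ℕ → Submodule F V}
    (hI : DirectSum.IsInternal fun p : ℕ × ℕ => G p.1 p.2) {S : Submodule F V}
    (h : ∀ k j, G k j ≤ S) (x : V) : x ∈ S := by
  have h1 : (⨆ p : ℕ × ℕ, G p.1 p.2) ≤ S := iSup_le fun p => h _ _
  rw [hI.submodule_iSup_eq_top] at h1
  exact h1 Submodule.mem_top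

namespace Lef

variable {n : ℕ} {G : ℕ → ℕ → Submodule F V} {e : Module.End F V}

theorem pow_mem (h : Lef n G e) {k j : ℕ} {x : V} (hx : x ∈ G k j) (r : ℕ) :
    (e ^ r) x ∈ G k (j + 2 * r) := by
  induction r with
  | zero => simpa using hx
  | succ r ih =>
    rw [pow_succ', Module.End.mul_apply]
    exact h.mem _ _ _ ih

theorem exists_inv (h : Lef n G e) (k j d : ℕ) (hn : k + j + d = n) :
    ∃ g : V →ₗ[F] V, (∀ x, g x ∈ G k j) ∧ (∀ x ∈ G k j, g ((e ^ d) x) = x) ∧
      ∀ y ∈ G k (j + 2 * d), (e ^ d) (g y) = y := by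
  obtain ⟨g, hg⟩ := LinearMap.exists_leftInverse_of_injective ((e ^ d) ∘ₗ (G k j).subtype) (by
    rw [LinearMap.ker_eq_bot']
    rintro ⟨x, hx⟩ hx0
    exact Subtype.ext (h.inj k j d hn x hx hx0))
  have h1 : ∀ x ∈ G k j, ((G k j).subtype ∘ₗ g) ((e ^ d) x) = x := by
    intro x hx
    exact congrArg Subtype.val (LinearMap.congr_fun hg ⟨x, hx⟩)
  refine ⟨(G k j).subtype ∘ₗ g, fun x => (g x).2, h1, ?_⟩
  intro y hy
  obtain ⟨x, hx, rfl⟩ := h.surj k j d hn y hy
  rw [h1 x hx]

/-- Primitive decomposition. -/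
theorem span (h : Lef n G e) {S : Submodule F V}
    (hS : ∀ k j d, k + j + d = n → ∀ p ∈ G k j, (e ^ (d + 1)) p = 0 → ∀ r, (e ^ r) p ∈ S)
    (x : V) : x ∈ S := by
  have low : ∀ j k d, k + j + d = n → ∀ x ∈ G k j, ∀ r, (e ^ r) x ∈ S := by
    intro j
    induction j using Nat.strong_induction_on with
    | _ j ih =>
      intro k d hn x hx r
      by_cases hj : j < 2
      · apply hS k j d hn x hx
        have h1 := h.pow_mem hx (d + 1)
        rwa [h.high k _ (by omega), Submodule.mem_bot] at h1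
      · obtain ⟨j', rfl⟩ : ∃ j', j = j' + 2 := ⟨j - 2, by omega⟩
        have h1 := h.pow_mem hx (d + 1)
        obtain ⟨y, hy, hyx⟩ := h.surj k j' (d + 2) (by omega) _
          (by convert h1 using 2; ring)
        have h2 : (e ^ r) (x - e y) ∈ S := by
          apply hS k (j' + 2) d hn (x - e y) (Submodule.sub_mem _ hx (h.mem _ _ _ hy))
          rw [map_sub, ← Module.End.mul_apply, ← pow_succ, ← hyx, sub_self]
        have h3 : (e ^ (r + 1)) y ∈ S := ih j' (by omega) k (d + 2) (by omega) y hy (r + 1)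
        rw [map_sub, ← Module.End.mul_apply, ← pow_succ] at h2
        have h4 := Submodule.add_mem _ h2 h3
        rwa [sub_add_cancel] at h4
  apply top_glue h.internal
  intro k j x hx
  by_cases h1 : k + j ≤ n
  · have := low j k (n - (k + j)) (by omega) x hx 0
    simpa using this
  · by_cases h2 : 2 * n < j + 2 * k
    · rw [h.high k j h2, Submodule.mem_bot] at hx
      rw [hx]; exact S.zero_mem
    · obtain ⟨y, hy, hyx⟩ := h.surj k (j - 2 * (k + j - n)) (k + j - n) (by omega) x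
        (by convert hx using 2; omega)
      rw [← hyx]
      exact low _ k (k + j - n) (by omega) y hy _

/-- An operator which commutes with `e` and lowers the weights is zero. -/
theorem eq_zero_of_neg (h : Lef n G e) {T : Module.End F V} (hT : T * e = e * T)
    (hw : ∀ k j d, k + j + d = n → ∀ x ∈ G k j, T x = 0 ∨
      ∃ k' j' d', k' + j' + d' = n ∧ d < d' ∧ T x ∈ G k' j') : T = 0 := by
  have hc : ∀ r : ℕ, T * e ^ r = e ^ r * T := fun r => (show Commute T e from hT).pow_right r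
  apply LinearMap.ext
  intro x
  refine (LinearMap.mem_ker.mp (h.span (S := LinearMap.ker T) ?_ x))
  intro k j d hn p hp hp0 r
  rcases hw k j d hn p hp with hp' | ⟨k', j', d', hn', hd, hp'⟩
  · rw [LinearMap.mem_ker, ← Module.End.mul_apply, hc, Module.End.mul_apply, hp', map_zero]
  · have h1 : (e ^ d') (T p) = 0 := by
      obtain ⟨c, rfl⟩ : ∃ c, d' = c + (d + 1) := ⟨d' - (d + 1), by omega⟩
      rw [← Module.End.mul_apply, ← hc, Module.End.mul_apply, pow_add, Module.End.mul_apply, hp0,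
        map_zero, map_zero]
    have h2 := h.inj k' j' d' hn' _ hp' h1
    rw [LinearMap.mem_ker, ← Module.End.mul_apply, hc, Module.End.mul_apply, h2, map_zero]

end Lef

end

end Pool.Agent.LibHL85
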