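import Pool.Agent.LibHL85.Lef

/-!
The operator `f` of degree `-2` with `[e, f] = h`.
-/

namespace Pool.Agent.LibHL85

open Module

section
variable {F V : Type*} [Field F] [AddCommGroup V] [Module F V]

namespace Lef

variable {n : ℕ} {G : ℕ → ℕ → Submodule F V} {e : Module.End F V}

/-- The inverse of `e ^ d : G k j → G k (j + 2 d)`. -/
noncomputable def inv (h : Lef n G e) (k j d : ℕ) : V →ₗ[F] V :=
  open Classical in
  if hn : k + j + d = n then (h.exists_inv k j d hn).choose else 0

theorem inv_mem (h : Lef n G e) {k j d : ℕ} (hn : k + j + d = n) (x : V) :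
    h.inv k j d x ∈ G k j := by
  rw [inv, dif_pos hn]
  exact (h.exists_inv k j d hn).choose_spec.1 x

theorem inv_pow (h : Lef n G e) {k j d : ℕ} (hn : k + j + d = n) {x : V} (hx : x ∈ G k j) :
    h.inv k j d ((e ^ d) x) = x := by
  rw [inv, dif_pos hn]
  exact (h.exists_inv k j d hn).choose_spec.2.1 x hx

theorem pow_inv (h : Lef n G e) {k j d : ℕ} (hn : k + j + d = n) {y : V}
    (hy : y ∈ G k (j + 2 * d)) : (e ^ d) (h.inv k j d y) = y := by
  rw [inv, dif_pos hn]
  exact (h.exists_inv k j d hn).choose_spec.2.2 y hy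

/-- For `x` in `G k (j + 2)`, `k + (j + 2) + d = n`: the class `y` with `e ^ (d + 2) y =
e ^ (d + 1) x`. -/
noncomputable def sec (h : Lef n G e) (k j : ℕ) : V →ₗ[F] V :=
  h.inv k j (n - (k + (j + 2)) + 2) ∘ₗ (e ^ (n - (k + (j + 2)) + 1))

theorem sec_mem (h : Lef n G e) {k j : ℕ} (hn : k + (j + 2) ≤ n) (x : V) :
    h.sec k j x ∈ G k j := h.inv_mem (by omega) _

theorem sec_apply (h : Lef n G e) {k j d : ℕ} (hn : k + (j + 2) + d = n) (x : V) :
    h.sec k j x = h.inv k j (d + 2) ((e ^ (d + 1)) x) := by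
  have hd : n - (k + (j + 2)) = d := by omega
  rw [sec, hd]
  rfl

theorem pow_sec (h : Lef n G e) {k j d : ℕ} (hn : k + (j + 2) + d = n) {x : V}
    (hx : x ∈ G k (j + 2)) : (e ^ (d + 2)) (h.sec k j x) = (e ^ (d + 1)) x := by
  rw [h.sec_apply hn, h.pow_inv (by omega)]
  have := h.pow_mem hx (d + 1)
  convert this using 2
  ring

theorem sec_e (h : Lef n G e) {k j d : ℕ} (hn : k + (j + 2) + d = n) {x : V}
    (hx : x ∈ G k j) : h.sec k j (e x) = x := by
  have h1 : (e ^ (d + 1)) (e x) = (e ^ (d + 2)) x := by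
    rw [← Module.End.mul_apply, ← pow_succ]
  rw [h.sec_apply hn, h1, h.inv_pow (by omega) hx]

/-- The operator `f` in the degrees `≤ n - k`. -/
noncomputable def low (h : Lef n G e) (k : ℕ) : ℕ → V →ₗ[F] V
  | 0 => 0
  | 1 => 0
  | j + 2 => e ∘ₗ low h k j ∘ₗ h.sec k j + (((n - (k + (j + 2)) + 2 : ℕ) : F)) • h.sec k j

theorem low_small (h : Lef n G e) (k : ℕ) {j : ℕ} (hj : j < 2) : h.low k j = 0 := by
  interval_cases j <;> rfl

theorem low_apply (h : Lef n G e) {k j d : ℕ} (hn : k + (j + 2) + d = n) (x : V) :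
    h.low k (j + 2) x = e (h.low k j (h.sec k j x)) + ((d + 2 : ℕ) : F) • h.sec k j x := by
  have hd : n - (k + (j + 2)) = d := by omega
  rw [low, hd]
  rfl

theorem low_mem (h : Lef n G e) (k : ℕ) : ∀ j, k + (j + 2) ≤ n → ∀ x ∈ G k (j + 2),
    h.low k (j + 2) x ∈ G k j := by
  intro j
  induction j using Nat.strong_induction_on with
  | _ j ih =>
    intro hn x hx
    rw [h.low_apply (d := n - (k + (j + 2))) (by omega)]
    refine Submodule.add_mem _ ?_ (Submodule.smul_mem _ _ (h.sec_mem hn x))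
    by_cases hj : j < 2
    · rw [h.low_small k hj, LinearMap.zero_apply, map_zero]
      exact Submodule.zero_mem _
    · obtain ⟨i, rfl⟩ : ∃ i, j = i + 2 := ⟨j - 2, by omega⟩
      exact h.mem _ _ _ (ih i (by omega) (by omega) _ (h.sec_mem hn x))

/-- The operator `f` on `G k j`. -/
noncomputable def piece (h : Lef n G e) (k j : ℕ) : V →ₗ[F] V :=
  if k + j ≤ n then h.low k j else
    (e ^ (k + j - n)) ∘ₗ h.low k (j - 2 * (k + j - n)) ∘ₗ
        h.inv k (j - 2 * (k + j - n)) (k + j - n) +
      ((k + j - n : ℕ) : F) • ((e ^ (k + j - n - 1)) ∘ₗ h.inv k (j - 2 * (k + j - n)) (k + j - n))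

theorem piece_low (h : Lef n G e) {k j : ℕ} (hn : k + j ≤ n) : h.piece k j = h.low k j :=
  if_pos hn

/-- The values in the degrees `≥ n - k`. -/
theorem piece_pow (h : Lef n G e) {k j i : ℕ} (hn : k + j + i = n) {x : V} (hx : x ∈ G k j) :
    h.piece k (j + 2 * i) ((e ^ i) x) =
      (e ^ i) (h.low k j x) + (i : F) • (e ^ (i - 1)) x := by
  rcases Nat.eq_zero_or_pos i with rfl | hi
  · rw [h.piece_low (by omega)]
    simp
  · have h1 : k + (j + 2 * i) - n = i := by omega
    have h2 : j + 2 * i - 2 * i = j := by omega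
    rw [piece, if_neg (by omega), h1, h2]
    simp only [LinearMap.add_apply, LinearMap.comp_apply, LinearMap.smul_apply]
    rw [h.inv_pow hn hx]

/-- The operator `f` with `[e, f] = h`. -/
theorem exists_f (h : Lef n G e) : ∃ f : Module.End F V,
    (∀ k j, ∀ x ∈ G k (j + 2), f x ∈ G k j) ∧ (∀ k j, j < 2 → ∀ x ∈ G k j, f x = 0) ∧
      ∀ k j, ∀ x ∈ G k j, e (f x) - f (e x) = ((k : F) + j - n) • x := by
  obtain ⟨f, hf⟩ := exists_glue h.internal h.piece
  have hzero : ∀ k j, 2 * n < j + 2 * k → ∀ x ∈ G k j, x = 0 := by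
    intro k j hkj x hx
    rwa [h.high k j hkj, Submodule.mem_bot] at hx
  refine ⟨f, ?_, ?_, ?_⟩
  · intro k j x hx
    rw [hf k _ x hx]
    by_cases h1 : k + (j + 2) ≤ n
    · rw [h.piece_low h1]
      exact h.low_mem k j h1 x hx
    · by_cases h2 : 2 * n < (j + 2) + 2 * k
      · rw [hzero k _ h2 x hx, map_zero]; exact Submodule.zero_mem _
      · obtain ⟨i, hi⟩ : ∃ i, k + (j + 2) = n + i := ⟨k + (j + 2) - n, by omega⟩
        obtain ⟨j', hj'⟩ : ∃ j', j + 2 = j' + 2 * i := ⟨j + 2 - 2 * i, by omega⟩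
        rw [hj'] at hx ⊢
        obtain ⟨y, hy, rfl⟩ := h.surj k j' i (by omega) x hx
        rw [h.piece_pow (by omega) hy]
        refine Submodule.add_mem _ ?_ (Submodule.smul_mem _ _ ?_)
        · by_cases h3 : j' < 2
          · rw [h.low_small k h3, LinearMap.zero_apply, map_zero]; exact Submodule.zero_mem _
          · obtain ⟨j'', rfl⟩ : ∃ j'', j' = j'' + 2 := ⟨j' - 2, by omega⟩
            have h4 := h.pow_mem (h.low_mem k j'' (by omega) y hy) i
            have h5 : j'' + 2 * i = j := by omega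
            rwa [h5] at h4
        · have h4 := h.pow_mem hy (i - 1)
          have h5 : j' + 2 * (i - 1) = j := by omega
          rwa [h5] at h4
  · intro k j hj x hx
    rw [hf k j x hx]
    by_cases h1 : k + j ≤ n
    · rw [h.piece_low h1, h.low_small k hj, LinearMap.zero_apply]
    · rw [hzero k j (by omega) x hx, map_zero]
  · intro k j x hx
    have hex := h.mem k j x hx
    rw [hf k j x hx, hf k _ _ hex]
    by_cases h2 : 2 * n < j + 2 * k
    · rw [hzero k j h2 x hx]; simp
    by_cases h1 : k + j < n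
    · -- below the middle
      rw [h.piece_low (by omega : k + j ≤ n)]
      by_cases h3 : k + (j + 2) ≤ n
      · obtain ⟨d, hd⟩ : ∃ d, k + (j + 2) + d = n := ⟨n - (k + (j + 2)), by omega⟩
        rw [h.piece_low h3, h.low_apply hd, h.sec_e hd hx]
        have h4 : (n : F) = k + (j + 2) + d := by rw [← hd]; push_cast; ring
        rw [h4]
        push_cast
        module
      · have h4 : k + j + 1 = n := by omega
        have h5 := h.piece_pow h4 hx
        rw [pow_one] at h5
        have h6 : (n : F) = k + j + 1 := by rw [← h4]; push_cast; ring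
        rw [show j + 2 = j + 2 * 1 from rfl, h5, h6]
        simp only [Nat.sub_self, pow_zero, Module.End.one_apply, Nat.cast_one]
        module
    · -- above the middle
      obtain ⟨i, hi⟩ : ∃ i, k + j = n + i := ⟨k + j - n, by omega⟩
      obtain ⟨j', hj'⟩ : ∃ j', j = j' + 2 * i := ⟨j - 2 * i, by omega⟩
      have hn : k + j' + i = n := by omega
      subst hj'
      obtain ⟨y, hy, rfl⟩ := h.surj k j' i hn x hx
      rw [h.piece_pow hn hy]
      have h4 : (n : F) = k + j' + i := by rw [← hn]; push_cast; ring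
      have h5 : e ((e ^ i) (h.low k j' y) + (i : F) • (e ^ (i - 1)) y) =
          (e ^ (i + 1)) (h.low k j' y) + (i : F) • (e ^ i) y := by
        rw [map_add, map_smul, ← Module.End.mul_apply, ← pow_succ']
        congr 1
        rcases Nat.eq_zero_or_pos i with rfl | hi0
        · simp
        · rw [← Module.End.mul_apply, ← pow_succ', Nat.sub_add_cancel hi0]
      rw [h5, h4]
      by_cases h3 : j' < 2
      · have h6 : e ((e ^ i) y) = 0 := by
          apply hzero k (j' + 2 * i + 2) (by omega)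
          exact hex
        rw [h6, map_zero, sub_zero, h.low_small k h3, LinearMap.zero_apply, map_zero, zero_add]
        push_cast
        module
      · obtain ⟨j, rfl⟩ : ∃ j, j' = j + 2 := ⟨j' - 2, by omega⟩
        have hz := h.sec_mem (k := k) (j := j) (by omega) y
        have h6 : e ((e ^ i) y) = (e ^ (i + 2)) (h.sec k j y) := by
          rw [h.pow_sec hn hy, ← Module.End.mul_apply, ← pow_succ']
        have h7 : j + 2 + 2 * i + 2 = j + 2 * (i + 2) := by ring
        rw [h6, h7, h.piece_pow (by omega) hz, h.low_apply hn]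
        have h8 : (e ^ (i + 1)) (e (h.low k j (h.sec k j y))) =
            (e ^ (i + 2)) (h.low k j (h.sec k j y)) := by
          rw [← Module.End.mul_apply, ← pow_succ]
        rw [map_add, map_smul, h8, show i + 2 - 1 = i + 1 from rfl]
        push_cast
        module

end Lef

end

end Pool.Agent.LibHL85
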