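import Pool.Agent.LibHL85.Comm

/-!
The values of `f` on the strings, and invariant forms.
-/

namespace Pool.Agent.LibHL85

open Module

section
variable {F V : Type*} [Field F] [AddCommGroup V] [Module F V]
variable {n : ℕ} {G : ℕ → ℕ → Submodule F V} {e f : Module.End F V}

namespace Low

theorem pow_apply (h : Lef n G e) (hL : Low n G e f) {k j : ℕ} {x : V} (hx : x ∈ G k j) (m : ℕ) :
    f ((e ^ m) x) =
      (e ^ m) (f x) - ((m : F) * ((k : F) + j - n + m - 1)) • (e ^ (m - 1)) x := by
  induction m with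
  | zero => simp
  | succ m ih =>
    have h1 := hL.comm _ _ _ (h.pow_mem hx m)
    have h2 : (e ^ (m + 1)) x = e ((e ^ m) x) := by rw [pow_succ', Module.End.mul_apply]
    have h3 : f (e ((e ^ m) x)) = e (f ((e ^ m) x)) - ((k : F) + (j + 2 * m : ℕ) - n) • (e ^ m) x := by
      rw [← h1]; abel
    rw [h2, h3, ih, map_sub, map_smul, ← Module.End.mul_apply, ← pow_succ']
    rcases Nat.eq_zero_or_pos m with rfl | hm
    · simp
    · have h4 : e ((e ^ (m - 1)) x) = (e ^ m) x := by
        rw [← Module.End.mul_apply, ← pow_succ', Nat.sub_add_cancel hm]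
      rw [h4, Nat.add_sub_cancel]
      push_cast
      module

theorem prim (h : Lef n G e) (hL : Low n G e f) {k j d : ℕ} (hn : k + j + d = n) {x : V}
    (hx : x ∈ G k j) (hx0 : (e ^ (d + 1)) x = 0) : f x = 0 := by
  rcases Nat.lt_or_ge j 2 with hj | hj
  · exact hL.small _ _ hj _ hx
  · obtain ⟨i, rfl⟩ : ∃ i, j = i + 2 := ⟨j - 2, by omega⟩
    apply h.inj k i (d + 2) (by omega) _ (hL.mem _ _ _ hx)
    have h1 := hL.pow_apply h hx (d + 1)
    have h2 : (n : F) = k + (i + 2) + d := by rw [← hn]; push_cast; ring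
    have h3 : (((d + 1 : ℕ) : F) * ((k : F) + (i + 2 : ℕ) - n + (d + 1 : ℕ) - 1)) = 0 := by
      rw [h2]; push_cast; ring
    rw [hx0, map_zero, h3, zero_smul, sub_zero] at h1
    rw [pow_succ', Module.End.mul_apply, ← h1, map_zero]

theorem pow_prim (h : Lef n G e) (hL : Low n G e f) {k j d : ℕ} (hn : k + j + d = n) {x : V}
    (hx : x ∈ G k j) (hx0 : (e ^ (d + 1)) x = 0) (m : ℕ) :
    f ((e ^ m) x) = ((m : F) * ((d : F) + 1 - m)) • (e ^ (m - 1)) x := by
  rw [hL.pow_apply h hx, hL.prim h hn hx hx0, map_zero, zero_sub, ← neg_smul]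
  congr 1
  have h2 : (n : F) = k + j + d := by rw [← hn]; push_cast; ring
  rw [h2]
  ring

/-- If `e` is self-adjoint for a form, so is `f`. -/
theorem adjoint (h : Lef n G e) (hL : Low n G e f) (B : V →ₗ[F] V →ₗ[F] F)
    (hB : ∀ x y, B (e x) y = B x (e y))
    (hw : ∀ k j k' j', ∀ x ∈ G k j, ∀ y ∈ G k' j', B x y ≠ 0 → k = k' ∧ k + k' + j + j' = 2 * n)
    (x y : V) : B (f x) y = B x (f y) := by
  -- the difference
  let D : V →ₗ[F] V →ₗ[F] F := B ∘ₗ f - B.compl₂ f
  have hD : ∀ x y, D x y = B (f x) y - B x (f y) := fun x y => rfl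
  have hDe : ∀ x y, D (e x) y = D x (e y) := by
    intro x y
    have h1 : ∀ k j, ∀ x ∈ G k j, ∀ k' j', ∀ y ∈ G k' j', D (e x) y = D x (e y) := by
      intro k j x hx k' j' y hy
      have h2 := hL.comm k j x hx
      have h3 := hL.comm k' j' y hy
      have h4 : f (e x) = e (f x) - ((k : F) + j - n) • x := by rw [← h2]; abel
      have h5 : f (e y) = e (f y) - ((k' : F) + j' - n) • y := by rw [← h3]; abel
      rw [hD, hD, h4, h5, map_sub, map_sub, LinearMap.sub_apply, map_smul, map_smul,
        LinearMap.smul_apply, hB, hB]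
      have h6 : ((k : F) + j - n + (k' + j' - n)) * B x y = 0 := by
        by_cases hxy : B x y = 0
        · rw [hxy, mul_zero]
        · obtain ⟨h7, h8⟩ := hw k j k' j' x hx y hy hxy
          have h9 : (k : F) + k' + j + j' = 2 * n := by exact_mod_cast congrArg (Nat.cast (R := F)) h8
          have h10 : ((k : F) + j - n + (k' + j' - n)) = 0 := by linear_combination h9
          rw [h10, zero_mul]
      simp only [smul_eq_mul]
      linear_combination -h6
    have h2 : ∀ k j, ∀ x ∈ G k j, ∀ y, D (e x) y = D x (e y) := by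
      intro k j x hx y
      have h3 : D (e x) = (D x) ∘ₗ e := ext_glue h.internal fun k' j' y hy => h1 k j x hx k' j' y hy
      exact LinearMap.congr_fun h3 y
    have h3 : D ∘ₗ e = D.compl₂ e := ext_glue h.internal fun k j x hx => by
      ext y
      exact h2 k j x hx y
    exact LinearMap.congr_fun (LinearMap.congr_fun h3 x) y
  have hDpow : ∀ m x y, D ((e ^ m) x) y = D x ((e ^ m) y) := by
    intro m
    induction m with
    | zero => intro x y; rfl
    | succ m ih =>
      intro x y
      rw [pow_succ, Module.End.mul_apply, ih, hDe, ← Module.End.mul_apply, ← pow_succ',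
        ← pow_succ]
  have hBpow : ∀ m x y, B ((e ^ m) x) y = B x ((e ^ m) y) := by
    intro m
    induction m with
    | zero => intro x y; rfl
    | succ m ih =>
      intro x y
      rw [pow_succ, Module.End.mul_apply, ih, hB, ← Module.End.mul_apply, ← pow_succ',
        ← pow_succ]
  -- primitive classes
  have key : ∀ k j d, k + j + d = n → ∀ p ∈ G k j, (e ^ (d + 1)) p = 0 →
      ∀ k' j' d', k' + j' + d' = n → ∀ p' ∈ G k' j', (e ^ (d' + 1)) p' = 0 → ∀ m,
      D p ((e ^ m) p') = 0 := by
    intro k j d hn p hp hp0 k' j' d' hn' p' hp' hp0' m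
    rw [hD, hL.prim h hn hp hp0, map_zero, LinearMap.zero_apply, zero_sub,
      hL.pow_prim h hn' hp' hp0', map_smul, smul_eq_mul, neg_eq_zero, mul_eq_zero]
    by_contra hcon
    push Not at hcon
    obtain ⟨h1, h2⟩ := hcon
    rcases m with _ | m
    · simp at h1
    · rw [Nat.add_sub_cancel] at h2
      obtain ⟨h3, h4⟩ := hw _ _ _ _ p hp _ (h.pow_mem hp' m) h2
      have h5 : d' ≠ m := by
        rintro rfl
        apply h1
        push_cast
        ring
      -- either `m > d'` or `m > d`
      rcases Nat.lt_or_ge d' m with h6 | h6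
      · apply h2
        obtain ⟨c, rfl⟩ : ∃ c, m = c + (d' + 1) := ⟨m - (d' + 1), by omega⟩
        rw [pow_add, Module.End.mul_apply, hp0', map_zero, map_zero]
      · apply h2
        rw [← hBpow]
        obtain ⟨c, rfl⟩ : ∃ c, m = c + (d + 1) := ⟨m - (d + 1), by omega⟩
        rw [pow_add, Module.End.mul_apply, hp0, map_zero, map_zero, LinearMap.zero_apply]
  have hD0 : D x y = 0 := by
    have h1 : ∀ y, ∀ x, x ∈ LinearMap.ker (D.flip y) := by
      intro y
      apply h.span
      intro k j d hn p hp hp0 i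
      rw [LinearMap.mem_ker, LinearMap.flip_apply, hDpow, ← LinearMap.mem_ker]
      have h2 : ∀ z, z ∈ LinearMap.ker ((D p) ∘ₗ (e ^ i)) := by
        apply h.span
        intro k' j' d' hn' p' hp' hp0' r
        rw [LinearMap.mem_ker, LinearMap.comp_apply, ← Module.End.mul_apply, ← pow_add]
        exact key k j d hn p hp hp0 k' j' d' hn' p' hp' hp0' _
      exact h2 y
    exact h1 y x
  rw [hD, sub_eq_zero] at hD0
  exact hD0

end Low

end

end Pool.Agent.LibHL85
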